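import Pool.Agent.W790.Peps.Final

set_option autoImplicit false

namespace Pool.Agent.Results.MP_0f69bf_mp.LocalPEPS

open Pool.Agent.W790.Peps Finset Function

/-- **Local PEPS approximation of ground states on two-dimensional tori.**
Let `h` be a finite-range interaction such that `H_L` has, for all large `L`, a unique ground state
`Ψ L` with a gap at least `Δ > 0`. Then for every finite region `R` and every `ε > 0` there is one
translationally invariant PEPS tensor `A` (of some finite bond dimension `D`, independent of `L`) such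
that the PEPS vector is nonzero for all large `L`; the reduced density matrices on `R` of the ground
state and of the PEPS are `ε`-close in trace norm for infinitely many `L`; and they are `ε`-close for
all sufficiently large `L` whenever the reduced density matrices of the ground states converge. -/
theorem result {d : ℕ} (hd : 1 ≤ d) (S : Finset (ℤ × ℤ)) (h : Matrix (S → Fin d) (S → Fin d) ℂ)
    (_hh : h.IsHermitian) (Δ : ℝ) (hΔ : 0 < Δ) (Ψ : ∀ L : ℕ, Vec d L) (L₀ : ℕ)
    (hgs : ∀ (L : ℕ) [NeZero L], L₀ ≤ L → IsGappedGroundState (hamiltonian h L) Δ (Ψ L))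
    (R : Finset (ℤ × ℤ)) (ε : ℝ) (hε : 0 < ε) :
    ∃ (D : ℕ) (A : Tensor d D),
      (∃ L₁ : ℕ, ∀ (L : ℕ) [NeZero L], L₁ ≤ L → peps A L ≠ 0) ∧
      (∀ M : ℕ, ∃ (L : ℕ) (_ : NeZero L), M ≤ L ∧
        traceNorm (redDensity R (Ψ L) - redDensity R (peps A L)) ≤ ε) ∧
      ((∀ a b, ∃ ρ : ℂ, ∀ δ : ℝ, 0 < δ → ∃ L₁ : ℕ, ∀ (L : ℕ) [NeZero L], L₁ ≤ L →
          ‖redDensity R (Ψ L) a b - ρ‖ < δ) →
        ∃ L₁ : ℕ, ∀ (L : ℕ) [NeZero L], L₁ ≤ L →
          traceNorm (redDensity R (Ψ L) - redDensity R (peps A L)) ≤ ε) := by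
  classical
  rcases Nat.lt_or_ge 1 d with hd2 | hd1
  swap
  · -- one-level systems
    obtain rfl : d = 1 := by omega
    have hA : ∀ (L : ℕ) [NeZero L], peps (fun _ _ _ _ _ => 1 : Tensor 1 1) L ≠ 0 := by
      intro L _ h0
      have := congrFun h0 default
      simp [peps] at this
    have key : ∀ (L : ℕ) [NeZero L], L₀ ≤ L →
        traceNorm (redDensity R (Ψ L) - redDensity R (peps (fun _ _ _ _ _ => 1 : Tensor 1 1) L)) ≤ ε := by
      intro L _ hL
      have hn := (hgs L hL).1
      have hne : Ψ L ≠ 0 := by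
        intro h0
        rw [h0] at hn
        simp [normSq] at hn
      refine (traceNorm_le _ 0 le_rfl ?_).trans (by simpa using hε.le)
      intro a b
      rw [Matrix.sub_apply, redDensity_one R _ hne, redDensity_one R _ (hA L)]
      simp
    refine ⟨1, fun _ _ _ _ _ => 1, ⟨0, fun L _ _ => hA L⟩, ?_, ?_⟩
    · intro M
      exact ⟨M + L₀ + 1, ⟨by omega⟩, by omega, @key _ ⟨by omega⟩ (by omega)⟩
    · intro _
      exact ⟨L₀, fun L _ hL => key L hL⟩
  · obtain ⟨r, hR⟩ := exists_radius R
    set C : ℝ := (Fintype.card (R → Fin d) : ℝ) ^ 2 with hC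
    have hCpos : 0 < C := by
      have : Nonempty (Fin d) := ⟨⟨0, by omega⟩⟩
      have : 0 < Fintype.card (R → Fin d) := Fintype.card_pos
      positivity
    set δ : ℝ := ε / C with hδ
    have hδ0 : 0 < δ := by positivity
    obtain ⟨N₀, hN₀⟩ := good_block hd2 R (δ / 2) (by positivity)
    set K : ℕ := L₀ + N₀ + (2 * r + 1) with hK
    -- a block size gives a tensor with the first property and a comparison
    have step : ∀ (N : ℕ) [NeZero N], K ≤ N → ∃ (D : ℕ) (A : Tensor d D),
        ∀ (L : ℕ) [NeZero L], (N + 3) * (N + 3) ≤ L → peps A L ≠ 0 ∧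
          ((∀ a b, ‖redDensity R (Ψ L) a b - redDensity R (Ψ N) a b‖ ≤ δ / 2) →
            traceNorm (redDensity R (Ψ L) - redDensity R (peps A L)) ≤ ε) := by
      intro N _ hN
      have hg := hgs N (by omega)
      obtain ⟨D, A, hA⟩ := hN₀ N (by omega) (Ψ N) hg.1 (hg.transInv hΔ)
      refine ⟨D, A, ?_⟩
      intro L _ hL
      obtain ⟨h1, h2⟩ := hA L hL
      refine ⟨h1, ?_⟩
      intro h3
      have h4 : traceNorm (redDensity R (Ψ L) - redDensity R (peps A L)) ≤ C * δ := by
        apply traceNorm_le _ δ hδ0.le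
        intro a b
        rw [Matrix.sub_apply]
        calc ‖redDensity R (Ψ L) a b - redDensity R (peps A L) a b‖
            = ‖(redDensity R (Ψ L) a b - redDensity R (Ψ N) a b)
                - (redDensity R (peps A L) a b - redDensity R (Ψ N) a b)‖ := by congr 1; ring
          _ ≤ _ := norm_sub_le _ _
          _ ≤ δ / 2 + δ / 2 := add_le_add (h3 a b) (h2 a b)
          _ = δ := by ring
      refine h4.trans (le_of_eq ?_)
      rw [hδ]; field_simp
    by_cases hconv : ∀ a b, ∃ ρ : ℂ, ∀ δ : ℝ, 0 < δ → ∃ L₁ : ℕ, ∀ (L : ℕ) [NeZero L], L₁ ≤ L →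
          ‖redDensity R (Ψ L) a b - ρ‖ < δ
    · choose ρ hρ using hconv
      choose L₁ hL₁ using fun a b => hρ a b (δ / 4) (by positivity)
      set M : ℕ := ∑ a, ∑ b, L₁ a b with hM
      have hMle : ∀ a b, L₁ a b ≤ M := by
        intro a b
        calc L₁ a b ≤ ∑ b, L₁ a b := Finset.single_le_sum (f := fun b => L₁ a b) (fun _ _ => Nat.zero_le _) (mem_univ b)
          _ ≤ M := Finset.single_le_sum (f := fun a => ∑ b, L₁ a b) (fun _ _ => Nat.zero_le _) (mem_univ a)
      set N : ℕ := K + M + 1 with hN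
      obtain ⟨D, A, hA⟩ := step N (by omega)
      have key : ∀ (L : ℕ) [NeZero L], (N + 3) * (N + 3) ≤ L →
          traceNorm (redDensity R (Ψ L) - redDensity R (peps A L)) ≤ ε := by
        intro L _ hL
        apply (hA L hL).2
        intro a b
        have hLM : L₁ a b ≤ L := (hMle a b).trans (by nlinarith)
        have hNM : L₁ a b ≤ N := (hMle a b).trans (by omega)
        calc ‖redDensity R (Ψ L) a b - redDensity R (Ψ N) a b‖
            = ‖(redDensity R (Ψ L) a b - ρ a b) - (redDensity R (Ψ N) a b - ρ a b)‖ := by congr 1; ring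
          _ ≤ _ := norm_sub_le _ _
          _ ≤ δ / 4 + δ / 4 := add_le_add (hL₁ a b L hLM).le (hL₁ a b N hNM).le
          _ = δ / 2 := by ring
      refine ⟨D, A, ⟨(N + 3) * (N + 3), fun L _ hL => (hA L hL).1⟩, ?_, ?_⟩
      · intro M'
        exact ⟨M' + (N + 3) * (N + 3), ⟨by positivity⟩, by omega, @key _ ⟨by positivity⟩ (by omega)⟩
      · intro _
        exact ⟨(N + 3) * (N + 3), fun L _ hL => key L hL⟩
    · -- compactness
      set u : ℕ → (R → Fin d) → (R → Fin d) → ℂ := fun n a b => redDensity R (Ψ (n + K + 1)) a b with hu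
      have hbd : Bornology.IsBounded (Set.range u) := by
        rw [isBounded_iff_forall_norm_le]
        refine ⟨1, ?_⟩
        rintro _ ⟨n, rfl⟩
        rw [pi_norm_le_iff_of_nonneg zero_le_one]
        intro a
        rw [pi_norm_le_iff_of_nonneg zero_le_one]
        intro b
        exact redDensity_le_one R r hR (by omega) _ (hgs (n + K + 1) (by omega)).1 a b
      obtain ⟨w, _, φ, hφ, hlim⟩ := tendsto_subseq_of_bounded hbd (fun n => Set.mem_range_self n)
      rw [Metric.tendsto_atTop] at hlim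
      obtain ⟨k₀, hk₀⟩ := hlim (δ / 4) (by positivity)
      have hclose : ∀ k, k₀ ≤ k → ∀ a b, ‖u (φ k) a b - w a b‖ ≤ δ / 4 := by
        intro k hk a b
        have h1 := (hk₀ k hk).le
        have h2 := (dist_le_pi_dist (u (φ k)) w a).trans h1
        have h3 := (dist_le_pi_dist (u (φ k) a) (w a) b).trans h2
        rwa [dist_eq_norm] at h3
      set N : ℕ := φ k₀ + K + 1 with hN
      obtain ⟨D, A, hA⟩ := step N (by omega)
      refine ⟨D, A, ⟨(N + 3) * (N + 3), fun L _ hL => (hA L hL).1⟩, ?_, ?_⟩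
      · intro M
        set k : ℕ := max k₀ (M + (N + 3) * (N + 3)) with hk
        have hk1 : k ≤ φ k := hφ.id_le k
        have hk2 : M + (N + 3) * (N + 3) ≤ k := le_max_right _ _
        refine ⟨φ k + K + 1, ⟨by omega⟩, by omega, ?_⟩
        apply (@hA (φ k + K + 1) ⟨by omega⟩ (by omega)).2
        intro a b
        have e1 := hclose k (le_max_left _ _) a b
        have e2 := hclose k₀ le_rfl a b
        calc ‖redDensity R (Ψ (φ k + K + 1)) a b - redDensity R (Ψ N) a b‖
            = ‖(u (φ k) a b - w a b) - (u (φ k₀) a b - w a b)‖ := by congr 1; rw [hu]; ring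
          _ ≤ _ := norm_sub_le _ _
          _ ≤ δ / 4 + δ / 4 := add_le_add e1 e2
          _ = δ / 2 := by ring
      · intro hc
        exact absurd hc hconv

end Pool.Agent.Results.MP_0f69bf_mp.LocalPEPS
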